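import Pool.Agent.Lib.MP_144d21_co.X4.Iface

/-!
# MP_144d21_co, project X4, module ND (helper75): minimum degree `d`, at least `d + 3` vertices.
-/

set_option autoImplicit false

namespace Pool.Agent.Xu.X4.H75

open Finset Polynomial Pool.Agent.Xu Pool.Agent.Xu.X4

variable {V : Type} [Fintype V] [DecidableEq V]

theorem twoConn_erase {G : SimpleGraph V} {S : Finset V} {v : V} (h : ThreeConn G S)
    (hv : v ∈ S) : TwoConn G (S.erase v) := by
  obtain ⟨h4, ⟨_, _, h2⟩, h3⟩ := h
  refine ⟨?_, h2 v hv, ?_⟩
  · rw [card_erase_of_mem hv]; omega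
  · intro w hw
    rw [mem_erase] at hw
    exact h3 v hv w hw.2 (Ne.symm hw.1)

theorem nb_erase_card {G : SimpleGraph V} {S : Finset V} {v w : V} :
    (nb G S w).card ≤ (nb G (S.erase v) w).card + 1 := by
  classical
  have h : nb G S w ⊆ insert v (nb G (S.erase v) w) := by
    intro x hx
    rw [mem_nb] at hx
    rw [mem_insert]
    by_cases hxv : x = v
    · exact Or.inl hxv
    · right
      rw [mem_nb]
      exact ⟨mem_erase.2 ⟨hxv, hx.1⟩, hx.2⟩
  exact (card_le_card h).trans (card_insert_le _ _)

theorem nd (hNDC : NdcS) (hTRB : TrbS) (hDV : DvS) : NdS := by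
  intro V _ _ G S d hd hS hcard hdeg
  induction d, hd using Nat.le_induction generalizing S with
  | base =>
    by_cases h3 : ThreeConn G S
    · have h := hTRB V G S h3
      have h6 : (6 : ℤ) ≤ (S.card : ℤ) := by exact_mod_cast hcard
      have hf : ((3 - 1).factorial : ℤ) = 2 := by norm_num [Nat.factorial]
      rw [hf]
      linarith
    · have h := hNDC V G S 3 hS (by omega) h3 hdeg
      have hf : ((3 - 1).factorial : ℤ) = 2 := by norm_num [Nat.factorial]
      rw [hf] at h ⊢
      linarith
  | succ d hd ih =>
    by_cases h3 : ThreeConn G S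
    · obtain ⟨v, hv⟩ : S.Nonempty := by
        rw [← card_pos]; omega
      have h2 := twoConn_erase h3 hv
      have hc : d + 3 ≤ (S.erase v).card := by
        rw [card_erase_of_mem hv]; omega
      have hde : ∀ w ∈ S.erase v, d ≤ (nb G (S.erase v) w).card := by
        intro w hw
        have h1 := hdeg w (mem_of_mem_erase hw)
        have h2 := nb_erase_card (G := G) (S := S) (v := v) (w := w)
        omega
      have hih := ih (S.erase v) h2 hc hde
      have hdv := hDV V G S v h3 hv
      have hdg : (d : ℤ) ≤ ((nb G S v).card : ℤ) - 1 := by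
        have h1 := hdeg v hv
        have h1' : ((d + 1 : ℕ) : ℤ) ≤ ((nb G S v).card : ℤ) := by exact_mod_cast h1
        push_cast at h1'
        linarith
      have hfac : ((d + 1 - 1).factorial : ℤ) = (d : ℤ) * ((d - 1).factorial : ℤ) := by
        have : (d + 1 - 1).factorial = d * (d - 1).factorial := by
          rw [Nat.add_sub_cancel]
          exact (Nat.mul_factorial_pred (by omega)).symm
        rw [this]; push_cast; ring
      have hpos : (0 : ℤ) ≤ 2 * ((d - 1).factorial : ℤ) := by positivity
      have hb0 : (0 : ℤ) ≤ bet G (S.erase v) := le_trans hpos hih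
      calc 2 * ((d + 1 - 1).factorial : ℤ) = (d : ℤ) * (2 * ((d - 1).factorial : ℤ)) := by
            rw [hfac]; ring
        _ ≤ (d : ℤ) * bet G (S.erase v) := by
            exact mul_le_mul_of_nonneg_left hih (by positivity)
        _ ≤ (((nb G S v).card : ℤ) - 1) * bet G (S.erase v) :=
            mul_le_mul_of_nonneg_right hdg hb0
        _ ≤ bet G S := hdv
    · have h := hNDC V G S (d + 1) hS (by omega) h3 hdeg
      have hf2 : (2 : ℤ) ≤ ((d + 1 - 1).factorial : ℤ) := by
        have : 2 ≤ (d + 1 - 1).factorial := by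
          rw [Nat.add_sub_cancel]
          calc 2 = (2).factorial := rfl
            _ ≤ d.factorial := Nat.factorial_le (by omega)
        exact_mod_cast this
      have h0 : (0 : ℤ) ≤ ((d + 1 - 1).factorial : ℤ) := by positivity
      exact (mul_le_mul_of_nonneg_right hf2 h0).trans h

end Pool.Agent.Xu.X4.H75
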